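import Pool.Agent.Work.MP_223b32_tc.Interface

namespace Pool.Agent.Work.TC

open Finset Polynomial

namespace B4

variable {F K : Type} [Field F] [Fintype F] [Field K] [Fintype K] [DecidableEq K] [Algebra F K]

theorem mem_range_of_pow_eq {a : K} (h : a ^ Fintype.card F = a) :
    a ∈ (algebraMap F K).range := by
  classical
  set q := Fintype.card F with hq
  have hq1 : 1 < q := Fintype.one_lt_card
  have hne : (X ^ q - X : K[X]) ≠ 0 := FiniteField.X_pow_card_sub_X_ne_zero K hq1
  have hdeg : (X ^ q - X : K[X]).natDegree = q := FiniteField.X_pow_card_sub_X_natDegree_eq K hq1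
  have hsub : (Finset.univ.image (algebraMap F K)) ⊆ (X ^ q - X : K[X]).roots.toFinset := by
    intro x hx
    obtain ⟨y, -, rfl⟩ := Finset.mem_image.mp hx
    rw [Multiset.mem_toFinset, mem_roots hne, IsRoot, eval_sub, eval_pow, eval_X, ← map_pow,
      FiniteField.pow_card, sub_self]
  have hcard : (X ^ q - X : K[X]).roots.toFinset.card ≤
      (Finset.univ.image (algebraMap F K)).card := by
    rw [Finset.card_image_of_injective _ (algebraMap F K).injective, Finset.card_univ, ← hq]
    exact (Multiset.toFinset_card_le _).trans ((card_roots' _).trans hdeg.le)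
  have heq := Finset.eq_of_subset_of_card_le hsub hcard
  have ha : a ∈ (X ^ q - X : K[X]).roots.toFinset := by
    rw [Multiset.mem_toFinset, mem_roots hne, IsRoot, eval_sub, eval_pow, eval_X, h, sub_self]
  rw [← heq] at ha
  obtain ⟨y, -, hy⟩ := Finset.mem_image.mp ha
  exact ⟨y, hy⟩

theorem iter (q k : ℕ) (a : K) : (fun x : K => x ^ q)^[k] a = a ^ (q ^ k) := by
  induction k with
  | zero => simp
  | succ k ih => rw [Function.iterate_succ_apply', ih, ← pow_mul, pow_succ]

theorem pow_ne {n : ℕ} (hn : n.Prime) (hfr : Module.finrank F K = n) {a : K}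
    (ha : a ∉ (algebraMap F K).range) {k : ℕ} (hk0 : 0 < k) (hk : k < n) :
    a ^ (Fintype.card F ^ k) ≠ a := by
  intro h
  apply ha
  apply mem_range_of_pow_eq
  set q := Fintype.card F with hq
  have h1 : Function.IsPeriodicPt (fun x : K => x ^ q) k a := by
    rw [Function.IsPeriodicPt, Function.IsFixedPt, iter]
    exact h
  have h2 : Function.IsPeriodicPt (fun x : K => x ^ q) n a := by
    rw [Function.IsPeriodicPt, Function.IsFixedPt, iter, ← hfr, hq,
      ← Module.card_eq_pow_finrank (K := F) (V := K)]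
    exact FiniteField.pow_card a
  have h3 := h1.gcd h2
  have h4 : k.gcd n = 1 := Nat.Coprime.symm
    ((Nat.Prime.coprime_iff_not_dvd hn).mpr (fun hd => absurd (Nat.le_of_dvd hk0 hd) (by omega)))
  rw [h4, Function.IsPeriodicPt, Function.IsFixedPt, iter, pow_one] at h3
  exact h3

theorem frob_sub (i k : ℕ) (a : K) :
    a ^ (Fintype.card F ^ (i + k)) - a ^ (Fintype.card F ^ i) =
      (a ^ (Fintype.card F ^ k) - a) ^ (Fintype.card F ^ i) := by
  obtain ⟨p, hF⟩ := CharP.exists F
  obtain ⟨n, hp, hcard⟩ := FiniteField.card F p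
  have : Fact p.Prime := ⟨hp⟩
  have : CharP K p := charP_of_injective_algebraMap (algebraMap F K).injective p
  have h1 : Fintype.card F ^ i = p ^ ((n : ℕ) * i) := by rw [hcard, ← pow_mul]
  rw [pow_add, Nat.mul_comm (Fintype.card F ^ i), pow_mul a, h1, sub_pow_char_pow]

end B4

open B4 in
theorem stmt_B4 (h : Stmt_MOORE) : Stmt_B4 := by
  intro F K _ _ _ _ _ _ hchar n hn hfr a ha m hm
  set q := Fintype.card F with hq
  have hqodd : Odd q := by
    rw [← Nat.not_even_iff_odd]
    intro he
    apply hchar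
    exact (FiniteField.even_card_iff_char_two.mpr (Nat.even_iff.mp he))
  have hne : ∀ i j : ℕ, i < j → j < n → a ^ (q ^ i) ≠ a ^ (q ^ j) := by
    intro i j hij hj heq
    obtain ⟨k, rfl⟩ : ∃ k, j = i + k := ⟨j - i, by omega⟩
    have h1 := frob_sub (F := F) i k a
    rw [← hq, ← heq, sub_self] at h1
    have h2 : a ^ q ^ k - a = 0 := by
      by_contra h3
      exact (pow_ne_zero _ h3) h1.symm
    exact pow_ne hn hfr ha (by omega) (by omega) (sub_eq_zero.mp h2)
  have hprod := h F K a m (fun i j hij hj => hne i j hij (by omega))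
  rw [← hq] at hprod
  have hfac : ∀ i ∈ range m, a ^ (q ^ m) - a ^ (q ^ i) ≠ 0 := by
    intro i hi
    rw [Finset.mem_range] at hi
    rw [sub_ne_zero]
    exact (hne i m hi hm).symm
  have hval : ∀ c : Fin m → F, val a m c ≠ 0 := by
    have h1 : ∏ c : Fin m → F, val a m c ≠ 0 := by
      rw [hprod]
      exact Finset.prod_ne_zero_iff.mpr hfac
    intro c
    exact Finset.prod_ne_zero_iff.mp h1 c (Finset.mem_univ c)
  -- the sum of signs
  have hsign : ∀ (ι : Type) [Fintype ι] (f : ι → ℤ), (∀ c, f c = 1 ∨ f c = -1) →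
      ∃ R : ℕ, ∑ c, f c = (Fintype.card ι : ℤ) - 2 * R ∧ ∏ c, f c = (-1) ^ R := by
    intro ι _ f hf
    classical
    refine ⟨(Finset.univ.filter (fun c => f c = -1)).card, ?_, ?_⟩
    · have h1 : ∀ c, f c = 1 - 2 * (if f c = -1 then 1 else 0) := by
        intro c
        rcases hf c with h2 | h2 <;> simp [h2]
      rw [Finset.sum_congr rfl (fun c _ => h1 c), Finset.sum_sub_distrib, ← Finset.mul_sum,
        Finset.sum_boole, Finset.sum_const, Finset.card_univ]
      simp
    · have h1 : ∀ c, f c = if f c = -1 then -1 else 1 := by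
        intro c
        rcases hf c with h2 | h2 <;> simp [h2]
      rw [Finset.prod_congr rfl (fun c _ => h1 c), Finset.prod_ite, Finset.prod_const,
        Finset.prod_const_one, mul_one]
  obtain ⟨R, hR1, hR2⟩ := hsign (Fin m → F) (fun c => quadraticChar K (val a m c))
    (fun c => quadraticChar_dichotomy (hval c))
  have hcard : (Fintype.card (Fin m → F) : ℤ) = (q : ℤ) ^ m := by
    rw [Fintype.card_fun, Fintype.card_fin]
    push_cast
    rfl
  rw [hcard] at hR1
  have hbb : bb F a m = (q : ℤ) ^ m - 2 * R := hR1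
  -- the parity of R
  have hpar : (-1 : ℤ) ^ R = (-1) ^ (∑ k ∈ Icc 1 m, dl F a k) := by
    rw [← hR2, ← map_prod, hprod, map_prod]
    have h1 : ∀ i ∈ range m, quadraticChar K (a ^ (q ^ m) - a ^ (q ^ i)) =
        (-1) ^ dl F a (m - i) := by
      intro i hi
      have hi' := Finset.mem_range.mp hi
      have h2 := frob_sub (F := F) i (m - i) a
      rw [show i + (m - i) = m by omega, ← hq] at h2
      have h3 : a ^ (q ^ (m - i)) - a ≠ 0 := by
        intro h4
        apply hfac i hi
        rw [h2, h4, zero_pow]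
        exact pow_ne_zero _ Fintype.card_ne_zero
      rw [h2, map_pow]
      have h5 := quadraticChar_dichotomy h3
      have h6 : Odd (q ^ i) := hqodd.pow
      unfold dl
      rw [← hq]
      rcases h5 with h7 | h7
      · rw [h7, one_pow, if_neg (by norm_num), pow_zero]
      · rw [h7, h6.neg_one_pow, if_pos rfl, pow_one]
    rw [Finset.prod_congr rfl h1, Finset.prod_pow_eq_pow_sum]
    congr 1
    refine Finset.sum_nbij' (fun i => m - i) (fun k => m - k) ?_ ?_ ?_ ?_ ?_
    · intro i hi
      rw [Finset.mem_range] at hi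
      rw [Finset.mem_Icc]
      omega
    · intro k hk
      rw [Finset.mem_Icc] at hk
      rw [Finset.mem_range]
      omega
    · intro i hi
      rw [Finset.mem_range] at hi
      omega
    · intro k hk
      rw [Finset.mem_Icc] at hk
      omega
    · intro i hi
      rfl
  have hmod : (R : ℤ) ≡ ∑ k ∈ Icc 1 m, (dl F a k : ℤ) [ZMOD 2] := by
    have h1 : R % 2 = (∑ k ∈ Icc 1 m, dl F a k) % 2 := by
      rcases Nat.even_or_odd R with h2 | h2
      · rcases Nat.even_or_odd (∑ k ∈ Icc 1 m, dl F a k) with h3 | h3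
        · rw [Nat.even_iff.mp h2, Nat.even_iff.mp h3]
        · rw [h2.neg_one_pow, h3.neg_one_pow] at hpar
          norm_num at hpar
      · rcases Nat.even_or_odd (∑ k ∈ Icc 1 m, dl F a k) with h3 | h3
        · rw [h2.neg_one_pow, h3.neg_one_pow] at hpar
          norm_num at hpar
        · rw [Nat.odd_iff.mp h2, Nat.odd_iff.mp h3]
    have h4 : ((∑ k ∈ Icc 1 m, dl F a k : ℕ) : ℤ) = ∑ k ∈ Icc 1 m, (dl F a k : ℤ) := by
      push_cast
      rfl
    rw [← h4]
    exact (Int.natCast_modEq_iff).mpr h1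
  rw [hbb]
  rw [Int.modEq_iff_dvd] at hmod ⊢
  obtain ⟨t, ht⟩ := hmod
  refine ⟨t + R, ?_⟩
  linarith
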